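import Mathlib

/-!
# Tiles inside a ten element set of integers

The interval `[10]` contains exactly 210 translational tiles of `ℤ`, while the ten element set
`{0, 5, 11, 37, 66, 78, 84, 97, 139, 143}` contains at least 212.
-/

namespace Pool.Agent.R861.TI

open Finset

/-- A set `S ⊆ ℤ` is a *tile* if `ℤ` is the disjoint union of translates of `S`: there is a set
`A` of translations such that every integer is `s + a` for exactly one pair `(s, a) ∈ S × A`.
(The empty set is not a tile.) -/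
def IsTile (S : Finset ℤ) : Prop :=
  ∃ A : Set ℤ, ∀ x : ℤ, ∃! p : ℤ × ℤ, p.1 ∈ S ∧ p.2 ∈ A ∧ p.1 + p.2 = x

open Classical in
/-- `T(M)`: the number of subsets of `M` that are tiles. -/
noncomputable def tileCount (M : Finset ℤ) : ℕ := #{S ∈ M.powerset | IsTile S}

/-! ### Subsets as bit masks -/

/-- indices `< 10` of the bits of `m` -/
def bits (m : ℕ) : List ℕ := (List.range 10).filter fun i => m.testBit i

/-- the subset of `{g 0, …, g 9}` given by the mask `m` -/
def sub (g : ℕ → ℤ) (m : ℕ) : Finset ℤ := ((bits m).map g).toFinset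

lemma mem_bits {m i : ℕ} : i ∈ bits m ↔ i < 10 ∧ m.testBit i = true := by
  simp [bits, List.mem_filter]

lemma mem_sub {g : ℕ → ℤ} {m : ℕ} {x : ℤ} :
    x ∈ sub g m ↔ ∃ i, i < 10 ∧ m.testBit i = true ∧ g i = x := by
  simp only [sub, List.mem_toFinset, List.mem_map, mem_bits]
  constructor
  · rintro ⟨i, ⟨h1, h2⟩, h3⟩; exact ⟨i, h1, h2, h3⟩
  · rintro ⟨i, h1, h2, h3⟩; exact ⟨i, ⟨h1, h2⟩, h3⟩

lemma sub_injOn (g : ℕ → ℤ) (hg : ∀ i j, i < 10 → j < 10 → g i = g j → i = j) :
    Set.InjOn (sub g) {m | m < 1024} := by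
  intro m hm m' hm' h
  refine Nat.eq_of_testBit_eq fun i => ?_
  by_cases hi : i < 10
  · have key : ∀ a b : ℕ, sub g a = sub g b → a.testBit i = true → b.testBit i = true := by
      intro a b hab ha
      have : g i ∈ sub g a := mem_sub.2 ⟨i, hi, ha, rfl⟩
      rw [hab] at this
      obtain ⟨j, hj, hb, hji⟩ := mem_sub.1 this
      rw [← hg j i hj hi hji]; exact hb
    cases h1 : m.testBit i <;> cases h2 : m'.testBit i
    · rfl
    · rw [key m' m h.symm h2] at h1; exact absurd h1 (by simp)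
    · rw [key m m' h h1] at h2; exact absurd h2 (by simp)
    · rfl
  · have h1024 : (1024 : ℕ) ≤ 2 ^ i := by
      calc (1024 : ℕ) = 2 ^ 10 := by norm_num
        _ ≤ 2 ^ i := Nat.pow_le_pow_right (by norm_num) (by omega)
    rw [Nat.testBit_lt_two_pow (lt_of_lt_of_le hm h1024),
      Nat.testBit_lt_two_pow (lt_of_lt_of_le hm' h1024)]

lemma exists_mask (g : ℕ → ℤ) (S : Finset ℤ) (hS : S ⊆ (Finset.range 10).image g) :
    ∃ m < 1024, sub g m = S := by
  classical
  refine ⟨Nat.ofBits (fun i : Fin 10 => decide (g i ∈ S)), ?_, ?_⟩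
  · have := Nat.ofBits_lt_two_pow (fun i : Fin 10 => decide (g i ∈ S))
    simpa using this
  · ext x
    rw [mem_sub]
    constructor
    · rintro ⟨i, hi, hb, rfl⟩
      rw [Nat.testBit_ofBits_lt _ _ hi] at hb
      simpa using hb
    · intro hx
      obtain ⟨i, hi, rfl⟩ := Finset.mem_image.1 (hS hx)
      have hi' : i < 10 := Finset.mem_range.1 hi
      refine ⟨i, hi', ?_, rfl⟩
      rw [Nat.testBit_ofBits_lt _ _ hi']
      simpa using hx

/-! ### Non-tiles: an exhaustive search -/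

/-- Exhaustive search: `cov` is a set of covered cells (bits), `c` the current cell. Returns `true`
only if the partial tiling cannot be extended. -/
def search (m : ℕ) (S : List ℕ) : ℕ → ℕ → ℕ → Bool
  | 0, _, _ => false
  | f + 1, cov, c =>
    if cov.testBit c then search m S f cov (c + 1)
    else S.all fun s => (cov &&& (m <<< (c - s)) != 0) || search m S f (cov ||| (m <<< (c - s))) (c + 1)

/-- `dead m = true` implies that the set with mask `m` is not a tile -/
def dead (m : ℕ) : Bool := search m (bits m) 60 (m <<< 10) 11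

/-- the covered cells of a finite set of placed tiles -/
lemma search_sound (m : ℕ) (hm : m < 1024) (A : Set ℤ)
    (hA : ∀ x : ℤ, ∃! p : ℕ × ℤ, (p.1 < 10 ∧ m.testBit p.1 = true) ∧ p.2 ∈ A ∧ (p.1 : ℤ) + p.2 = x) :
    ∀ (f cov c : ℕ), 10 ≤ c →
      (∃ B : Set ℤ, B ⊆ A ∧ ∀ i : ℕ, cov.testBit i = true ↔
        ∃ z ∈ B, ∃ j : ℕ, j < 10 ∧ m.testBit j = true ∧ (j : ℤ) + z = i) →
      search m (bits m) f cov c = true → False := by
  intro f
  induction f with
  | zero => intro cov c _ _ h; simp [search] at h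
  | succ f ih =>
    intro cov c hc hB h
    rw [search] at h
    by_cases hbit : cov.testBit c = true
    · rw [if_pos hbit] at h
      exact ih cov (c + 1) (by omega) hB h
    · rw [if_neg hbit, List.all_eq_true] at h
      obtain ⟨B, hBA, hcov⟩ := hB
      obtain ⟨⟨j, z⟩, ⟨⟨hj, hmj⟩, hz, hjz⟩, _⟩ := hA (c : ℤ)
      simp only at hj hmj hz hjz
      have hjc : j ≤ c := by omega
      have hzc : z = ((c - j : ℕ) : ℤ) := by
        rw [Nat.cast_sub hjc]; omega
      have hzB : z ∉ B := fun hzB => hbit ((hcov c).2 ⟨z, hzB, j, hj, hmj, hjz⟩)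
      have hshift : ∀ i : ℕ, (m <<< (c - j)).testBit i = true ↔
          ∃ j' : ℕ, j' < 10 ∧ m.testBit j' = true ∧ (j' : ℤ) + z = i := by
        intro i
        rw [Nat.testBit_shiftLeft]
        simp only [Bool.and_eq_true, decide_eq_true_eq]
        constructor
        · rintro ⟨h1, h2⟩
          refine ⟨i - (c - j), ?_, h2, ?_⟩
          · by_contra hge
            have h1024 : (1024 : ℕ) ≤ 2 ^ (i - (c - j)) := by
              calc (1024 : ℕ) = 2 ^ 10 := by norm_num
                _ ≤ _ := Nat.pow_le_pow_right (by norm_num) (by omega)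
            rw [Nat.testBit_lt_two_pow (lt_of_lt_of_le hm h1024)] at h2
            simp at h2
          · rw [hzc]; omega
        · rintro ⟨j', hj', hmj', hi⟩
          rw [hzc] at hi
          have : i = j' + (c - j) := by omega
          subst this
          refine ⟨by omega, ?_⟩
          rw [Nat.add_sub_cancel]; exact hmj'
      have h2 := h j (mem_bits.2 ⟨hj, hmj⟩)
      rw [Bool.or_eq_true] at h2
      rcases h2 with h2 | h2
      · -- overlap: contradiction with disjointness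
        have hne : cov &&& (m <<< (c - j)) ≠ 0 := by simpa using h2
        obtain ⟨i, hi⟩ := Nat.exists_testBit_of_ne_zero hne
        rw [Nat.testBit_and, Bool.and_eq_true] at hi
        obtain ⟨z', hz', j1, hj1, hm1, he1⟩ := (hcov i).1 hi.1
        obtain ⟨j2, hj2, hm2, he2⟩ := (hshift i).1 hi.2
        have := (hA (i : ℤ)).unique (y₁ := (j1, z')) (y₂ := (j2, z))
          ⟨⟨hj1, hm1⟩, hBA hz', he1⟩ ⟨⟨hj2, hm2⟩, hz, he2⟩
        have hzz : z' = z := congrArg Prod.snd this
        exact hzB (hzz ▸ hz')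
      · refine ih _ (c + 1) (by omega) ⟨insert z B, ?_, ?_⟩ h2
        · intro w hw
          rcases hw with rfl | hw
          · exact hz
          · exact hBA hw
        · intro i
          rw [Nat.testBit_or, Bool.or_eq_true, hcov i, hshift i]
          constructor
          · rintro (⟨w, hw, hr⟩ | hr)
            · exact ⟨w, Set.mem_insert_of_mem _ hw, hr⟩
            · exact ⟨z, Set.mem_insert _ _, hr⟩
          · rintro ⟨w, hw, hr⟩
            rcases hw with rfl | hw
            · right; exact hr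
            · left; exact ⟨w, hw, hr⟩

/-- the increasing enumeration of `[10] = {1, …, 10}` -/
def gI (i : ℕ) : ℤ := (i : ℤ) + 1

lemma not_tile_of_dead (m : ℕ) (hm : m < 1024) (h : dead m = true) : ¬ IsTile (sub gI m) := by
  rintro ⟨A, hA⟩
  -- reformulate with indices
  have hA' : ∀ x : ℤ, ∃! p : ℕ × ℤ, (p.1 < 10 ∧ m.testBit p.1 = true) ∧ p.2 ∈ A ∧
      (p.1 : ℤ) + p.2 = x := by
    intro x
    obtain ⟨⟨s, a⟩, ⟨hs, ha, hsa⟩, huniq⟩ := hA (x + 1)
    obtain ⟨i, hi, hb, rfl⟩ := mem_sub.1 hs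
    refine ⟨(i, a), ⟨⟨hi, hb⟩, ha, ?_⟩, ?_⟩
    · simp only [gI] at hsa ⊢; omega
    · rintro ⟨j, b⟩ ⟨⟨hj, hbj⟩, hb', hjb⟩
      have := huniq (gI j, b) ⟨mem_sub.2 ⟨j, hj, hbj, rfl⟩, hb', by simp only [gI] at hjb ⊢; omega⟩
      have h1 : gI j = gI i := congrArg Prod.fst this
      have h2 : b = a := congrArg Prod.snd this
      simp only [gI] at h1
      exact Prod.ext (by simp only; omega) h2
  -- translate so that `10 ∈ A`
  obtain ⟨⟨j0, z0⟩, ⟨_, hz0, _⟩, _⟩ := hA' 0
  simp only at hz0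
  have hA'' : ∀ x : ℤ, ∃! p : ℕ × ℤ, (p.1 < 10 ∧ m.testBit p.1 = true) ∧
      p.2 ∈ {w : ℤ | w + z0 - 10 ∈ A} ∧ (p.1 : ℤ) + p.2 = x := by
    intro x
    obtain ⟨⟨i, a⟩, ⟨hi, ha, hia⟩, huniq⟩ := hA' (x + z0 - 10)
    refine ⟨(i, a - z0 + 10), ⟨hi, ?_, ?_⟩, ?_⟩
    · show a - z0 + 10 + z0 - 10 ∈ A
      have e : a - z0 + 10 + z0 - 10 = a := by ring
      rw [e]; exact ha
    · simp only at hia ⊢; omega
    · rintro ⟨j, b⟩ ⟨hj, hb, hjb⟩
      have := huniq (j, b + z0 - 10) ⟨hj, hb, by simp only at hjb ⊢; omega⟩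
      have h1 : j = i := congrArg Prod.fst this
      have h2 : b + z0 - 10 = a := congrArg Prod.snd this
      exact Prod.ext h1 (by simp only; omega)
  refine search_sound m hm _ hA'' 60 (m <<< 10) 11 (by norm_num) ⟨{10}, ?_, ?_⟩ h
  · intro w hw
    rw [Set.mem_singleton_iff] at hw
    subst hw
    show (10 : ℤ) + z0 - 10 ∈ A
    have e : (10 : ℤ) + z0 - 10 = z0 := by ring
    rw [e]; exact hz0
  · intro i
    rw [Nat.testBit_shiftLeft]
    simp only [Bool.and_eq_true, decide_eq_true_eq]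
    constructor
    · rintro ⟨h1, h2⟩
      refine ⟨10, rfl, i - 10, ?_, h2, by omega⟩
      by_contra hge
      have h1024 : (1024 : ℕ) ≤ 2 ^ (i - 10) := by
        calc (1024 : ℕ) = 2 ^ 10 := by norm_num
          _ ≤ _ := Nat.pow_le_pow_right (by norm_num) (by omega)
      rw [Nat.testBit_lt_two_pow (lt_of_lt_of_le hm h1024)] at h2
      simp at h2
    · rintro ⟨z, hz, j, hj, hmj, hi⟩
      rw [Set.mem_singleton_iff] at hz
      subst hz
      have : i = j + 10 := by omega
      subst this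
      exact ⟨by omega, by rw [Nat.add_sub_cancel]; exact hmj⟩

/-! ### Tiles: certificates -/

/-- `chk g m N t`: the periodic set with period `N` and digit mask `t` is a tiling complement of
`sub g m` -/
def chk (g : ℕ → ℕ) (m N t : ℕ) : Bool :=
  (N != 0) && (List.range N).all fun x =>
    ((bits m).filter fun i => t.testBit ((x + (N - 1) * g i) % N)).length == 1

lemma isTile_of_chk (g : ℕ → ℕ) (m N t : ℕ) (hg : ∀ i j, i < 10 → j < 10 → g i = g j → i = j)
    (h : chk g m N t = true) : IsTile (sub (fun i => (g i : ℤ)) m) := by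
  rw [chk, Bool.and_eq_true, List.all_eq_true] at h
  obtain ⟨hN, h⟩ := h
  have hN0 : N ≠ 0 := by simpa using hN
  have hNpos : (0 : ℤ) < N := by exact_mod_cast Nat.pos_of_ne_zero hN0
  refine ⟨{z : ℤ | t.testBit (z % N).toNat = true}, fun x => ?_⟩
  have hx0 : 0 ≤ x % N := Int.emod_nonneg _ hNpos.ne'
  have hxN : x % N < N := Int.emod_lt_of_pos _ hNpos
  have h1 := h (x % N).toNat (List.mem_range.2 (by omega))
  rw [beq_iff_eq, List.length_eq_one_iff] at h1
  obtain ⟨i0, hi0⟩ := h1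
  have hidx : ∀ i, ((x - (g i : ℤ)) % N).toNat = ((x % N).toNat + (N - 1) * g i) % N := by
    intro i
    have e1 : (((((x % N).toNat + (N - 1) * g i) % N : ℕ)) : ℤ) = (x - (g i : ℤ)) % N := by
      push_cast [Nat.cast_sub (Nat.pos_of_ne_zero hN0)]
      rw [Int.toNat_of_nonneg hx0]
      have : (x % (N : ℤ) + ((N : ℤ) - 1) * (g i : ℤ)) = (x - (g i : ℤ)) + (N : ℤ) * ((g i : ℤ) - x / N) := by
        have := Int.emod_add_mul_ediv x (N : ℤ)
        linear_combination this
      rw [this, Int.add_mul_emod_self_left]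
    omega
  have hmem : ∀ i, (i < 10 ∧ m.testBit i = true) ∧ t.testBit ((x - (g i : ℤ)) % N).toNat = true ↔
      i = i0 := by
    intro i
    have : i ∈ (bits m).filter (fun i => t.testBit (((x % N).toNat + (N - 1) * g i) % N)) ↔ i = i0 := by
      rw [hi0, List.mem_singleton]
    rw [← this, List.mem_filter, mem_bits, hidx]
  obtain ⟨hb0, ht0⟩ := (hmem i0).2 rfl
  refine ⟨((g i0 : ℤ), x - g i0), ⟨mem_sub.2 ⟨i0, hb0.1, hb0.2, rfl⟩, ht0, by simp⟩, ?_⟩
  rintro ⟨s, a⟩ ⟨hs, ha, hsa⟩
  obtain ⟨j, hj, hbj, rfl⟩ := mem_sub.1 hs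
  simp only at ha hsa
  have ha' : a = x - g j := by omega
  subst ha'
  have := (hmem j).1 ⟨⟨hj, hbj⟩, ha⟩
  subst this
  rfl

/-- the elements of the better set -/
def gM (i : ℕ) : ℕ := [0, 5, 11, 37, 66, 78, 84, 97, 139, 143].getD i 0

/-- certificates `(mask, period, complement mask)` for 212 tiles inside the set -/
def certs : List (ℕ × ℕ × ℕ) :=
  [(1, 1, 1), (2, 1, 1), (3, 2, 1), (4, 1, 1), (5, 2, 1), (6, 4, 9), (8, 1, 1), (9, 2, 1), (10,
    64, 17870283321540345855), (11, 3, 1), (12, 4, 3), (13, 3, 1), (16, 1, 1), (17, 4, 3), (18, 2,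
    1), (20, 2, 1), (23, 4, 1), (24, 2, 1), (26, 3, 1), (28, 3, 1), (29, 4, 1), (32, 1, 1), (33,
    4, 3), (34, 2, 1), (36, 2, 1), (39, 4, 1), (40, 2, 1), (42, 3, 1), (44, 3, 1), (45, 4, 1),
    (48, 8, 195), (49, 9, 7), (64, 1, 1), (65, 8, 15), (66, 2, 1), (68, 2, 1), (72, 2, 1), (74, 3,
    1), (76, 3, 1), (80, 4, 9), (86, 4, 1), (92, 4, 1), (96, 4, 9), (97, 9, 7), (102, 4, 1), (108,
    4, 1), (109, 5, 1), (110, 5, 1), (113, 8, 3), (121, 5, 1), (122, 5, 1), (128, 1, 1), (129, 2,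
    1), (130, 8, 105), (131, 3, 1), (132, 4, 3), (133, 3, 1), (136, 8, 105), (144, 2, 1), (146, 3,
    1), (148, 3, 1), (149, 4, 1), (160, 2, 1), (162, 3, 1), (164, 3, 1), (165, 4, 1), (178, 8,
    65), (184, 8, 65), (191, 7, 1), (192, 2, 1), (194, 3, 1), (195, 8, 5), (196, 3, 1), (201, 8,
    5), (212, 4, 1), (228, 4, 1), (229, 5, 1), (230, 5, 1), (241, 5, 1), (242, 5, 1), (254, 7, 1),
    (256, 1, 1), (257, 2, 1), (258, 4, 9), (259, 3, 1), (260, 256,
    115735550131243287125024319488664134460763671334440017347281805585354300850175), (261, 3, 1),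
    (264, 4, 9), (272, 2, 1), (274, 3, 1), (275, 4, 1), (276, 3, 1), (281, 4, 1), (287, 12, 513),
    (288, 2, 1), (290, 3, 1), (291, 4, 1), (292, 3, 1), (297, 4, 1), (301, 5, 1), (302, 5, 1),
    (303, 12, 513), (313, 5, 1), (314, 5, 1), (319, 7, 1), (320, 2, 1), (322, 3, 1), (324, 3, 1),
    (338, 4, 1), (344, 4, 1), (350, 12, 513), (354, 4, 1), (360, 4, 1), (366, 12, 513), (382, 7,
    1), (384, 4, 9), (392, 9, 259), (401, 4, 1), (407, 12, 513), (417, 4, 1), (421, 5, 1), (422,
    5, 1), (423, 12, 513), (433, 5, 1), (434, 5, 1), (441, 18, 21), (464, 4, 1), (470, 12, 513),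
    (480, 4, 1), (486, 12, 513), (489, 18, 21), (512, 1, 1), (513, 2, 1), (514, 4, 9), (516, 8,
    225), (518, 9, 49), (520, 4, 9), (521, 3, 1), (528, 2, 1), (531, 4, 1), (536, 3, 1), (537, 4,
    1), (544, 2, 1), (547, 4, 1), (552, 3, 1), (553, 4, 1), (564, 8, 65), (567, 18, 81921), (576,
    2, 1), (581, 8, 65), (584, 3, 1), (589, 5, 1), (590, 5, 1), (594, 4, 1), (600, 4, 1), (601, 5,
    1), (602, 5, 1), (610, 4, 1), (615, 18, 81921), (616, 4, 1), (640, 4, 9), (641, 3, 1), (646,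
    8, 9), (652, 8, 33), (656, 3, 1), (657, 4, 1), (672, 3, 1), (673, 4, 1), (687, 7, 1), (700,
    24, 33345), (704, 3, 1), (709, 5, 1), (710, 5, 1), (717, 24, 2392065), (720, 4, 1), (721, 5,
    1), (722, 5, 1), (736, 4, 1), (750, 7, 1), (759, 8, 1), (765, 8, 1), (768, 8, 225), (769, 3,
    1), (781, 5, 1), (782, 5, 1), (784, 3, 1), (793, 5, 1), (794, 5, 1), (795, 12, 513), (800, 3,
    1), (811, 12, 513), (815, 7, 1), (816, 8, 65), (832, 3, 1), (833, 8, 65), (858, 12, 513),
    (874, 12, 513), (878, 7, 1), (898, 8, 9), (901, 5, 1), (902, 5, 1), (904, 8, 9), (913, 5, 1),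
    (914, 5, 1), (915, 12, 513), (931, 12, 513), (959, 9, 1), (978, 12, 513), (994, 12, 513),
    (1007, 9, 1), (1011, 8, 1), (1017, 8, 1)]

lemma certs_ok : (certs.all fun c => chk gM c.1 c.2.1 c.2.2 && decide (c.1 < 1024)) = true := by
  decide +kernel

lemma certs_nodup : (certs.map Prod.fst).Nodup := by
  decide +kernel

lemma certs_length : (certs.map Prod.fst).length = 212 := by
  decide +kernel

lemma alive_count : ((List.range 1024).filter fun m => !(dead m) && (m != 0)).length = 210 := by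
  decide +kernel

/-- `T([10]) ≤ 210` -/
lemma tileCount_interval : tileCount (Finset.Icc 1 10) ≤ 210 := by
  classical
  have hIcc : (Finset.Icc 1 10 : Finset ℤ) = (Finset.range 10).image gI := by
    ext x
    simp only [Finset.mem_Icc, Finset.mem_image, Finset.mem_range, gI]
    constructor
    · rintro ⟨h1, h2⟩
      exact ⟨(x - 1).toNat, by omega, by omega⟩
    · rintro ⟨i, hi, rfl⟩
      omega
  rw [tileCount, ← alive_count]
  have hsub : ({S ∈ (Finset.Icc 1 10 : Finset ℤ).powerset | IsTile S} : Finset (Finset ℤ)) ⊆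
      (((List.range 1024).filter fun m => !(dead m) && (m != 0)).map (sub gI)).toFinset := by
    intro S hS
    obtain ⟨hS1, hS2⟩ := Finset.mem_filter.1 hS
    rw [Finset.mem_powerset, hIcc] at hS1
    obtain ⟨m, hm, rfl⟩ := exists_mask gI S hS1
    rw [List.mem_toFinset, List.mem_map]
    refine ⟨m, ?_, rfl⟩
    rw [List.mem_filter]
    refine ⟨List.mem_range.2 hm, ?_⟩
    have h1 : dead m = false := by
      by_contra hd
      exact not_tile_of_dead m hm (by simpa using hd) hS2
    have h2 : m ≠ 0 := by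
      rintro rfl
      obtain ⟨A, hA⟩ := hS2
      obtain ⟨p, ⟨hp, _⟩, _⟩ := hA 0
      obtain ⟨i, _, hb, _⟩ := mem_sub.1 hp
      simp at hb
    simp [h1, h2]
  refine (Finset.card_le_card hsub).trans ?_
  refine (List.toFinset_card_le _).trans ?_
  rw [List.length_map]

lemma gM_inj : ∀ i j, i < 10 → j < 10 → gM i = gM j → i = j := by
  have : ∀ i : Fin 10, ∀ j : Fin 10, gM i = gM j → i = j := by decide
  intro i j hi hj h
  have := this ⟨i, hi⟩ ⟨j, hj⟩ h
  exact congrArg Fin.val this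

/-- the better set -/
def MM : Finset ℤ := {0, 5, 11, 37, 66, 78, 84, 97, 139, 143}

lemma MM_card : #MM = 10 := by decide

lemma gM_mem (i : ℕ) (hi : i < 10) : (gM i : ℤ) ∈ MM := by
  have : ∀ i : Fin 10, ((gM i : ℕ) : ℤ) ∈ MM := by decide
  exact this ⟨i, hi⟩

/-- `T(MM) ≥ 212` -/
lemma tileCount_MM : 212 ≤ tileCount MM := by
  classical
  rw [tileCount, ← certs_length]
  have hok : ∀ c ∈ certs, chk gM c.1 c.2.1 c.2.2 = true ∧ c.1 < 1024 := by
    intro c hc
    have := List.all_eq_true.1 certs_ok c hc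
    simpa using this
  set g : ℕ → ℤ := fun i => (gM i : ℤ) with hg
  have hinj : ∀ i j, i < 10 → j < 10 → g i = g j → i = j := by
    intro i j hi hj h
    exact gM_inj i j hi hj (by simpa [hg] using h)
  have hcard : #((certs.map Prod.fst).toFinset.image (sub g)) = (certs.map Prod.fst).length := by
    rw [Finset.card_image_of_injOn, List.toFinset_card_of_nodup certs_nodup]
    intro a ha b hb hab
    have hlt : ∀ a ∈ ((certs.map Prod.fst).toFinset : Set ℕ), a < 1024 := by
      intro a ha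
      obtain ⟨c, hc, rfl⟩ := List.mem_map.1 (List.mem_toFinset.1 (Finset.mem_coe.1 ha))
      exact (hok c hc).2
    exact sub_injOn g hinj (hlt a ha) (hlt b hb) hab
  rw [← hcard]
  refine Finset.card_le_card ?_
  intro S hS
  obtain ⟨m, hm, rfl⟩ := Finset.mem_image.1 hS
  obtain ⟨c, hc, rfl⟩ := List.mem_map.1 (List.mem_toFinset.1 hm)
  rw [Finset.mem_filter, Finset.mem_powerset]
  refine ⟨?_, isTile_of_chk gM c.1 c.2.1 c.2.2 gM_inj (hok c hc).1⟩
  intro x hx
  obtain ⟨i, hi, _, rfl⟩ := mem_sub.1 hx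
  exact gM_mem i hi

end Pool.Agent.R861.TI
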